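import Pool.Agent.Helper29.ZR.Props
import Pool.Agent.Helper62.AR.Rect

/-!
# MP_b55b7c_an: matrices over `ℂ + e A e` (packet ZR-RectC)
-/

open scoped ENNReal NNReal InnerProductSpace ComplexOrder
open Filter Topology

attribute [-instance] CStarMatrix.instAlgebra CStarMatrix.instModule CStarMatrix.instSMul
  CStarMatrix.instMulAction CStarMatrix.instDistribMulAction

set_option linter.unusedSectionVars false
set_option linter.unusedSimpArgs false

noncomputable section
namespace RC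
universe u

namespace RectC

variable {A : Type u} [CStarAlgebra A] [PartialOrder A] [StarOrderedRing A]
  {ν : Type} [Fintype ν] [DecidableEq ν]

/-- `f = s + e y e`. -/
def InS (e : A) (s : ℂ) (f : A) : Prop := ∃ y : A, f = s • (1 : A) + e * y * e

/-- `f` belongs to `ℂ + e A e`. -/
def InF (e f : A) : Prop := ∃ s : ℂ, InS e s f

/-- The column `v` is `c z e`. -/
def InG (c : CStarMatrix ν ν A) (e : A) (v : ν → A) : Prop :=
  ∃ z : ν → A, ∀ n, v n = (∑ k, c n k * z k) * e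

/-- The row `u` is `e r c`. -/
def InR (c : CStarMatrix ν ν A) (e : A) (u : ν → A) : Prop :=
  ∃ r : ν → A, ∀ n, u n = e * ∑ k, r k * c k n

theorem InS.add {e f g : A} {s t : ℂ} (hf : InS e s f) (hg : InS e t g) :
    InS e (s + t) (f + g) := by
  obtain ⟨y, rfl⟩ := hf
  obtain ⟨z, rfl⟩ := hg
  refine ⟨y + z, ?_⟩
  rw [add_smul, mul_add, add_mul]
  abel

theorem InS.neg {e f : A} {s : ℂ} (hf : InS e s f) : InS e (-s) (-f) := by
  obtain ⟨y, rfl⟩ := hf
  refine ⟨-y, ?_⟩
  rw [neg_smul, mul_neg, neg_mul, neg_add]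

theorem InS.mul {e f g : A} {s t : ℂ} (hf : InS e s f) (hg : InS e t g) :
    InS e (s * t) (f * g) := by
  obtain ⟨y, rfl⟩ := hf
  obtain ⟨z, rfl⟩ := hg
  refine ⟨s • z + t • y + y * e * e * z, ?_⟩
  simp only [mul_add, add_mul, smul_mul_assoc, mul_smul_comm, one_mul, mul_one, smul_smul,
    smul_add, mul_assoc, mul_comm t s]
  abel

theorem InS.zero (e : A) : InS e 0 0 := ⟨0, by simp⟩

theorem InS.one (e : A) : InS e 1 1 := ⟨0, by simp⟩

theorem InS.sum {e : A} {κ : Type} {S : Finset κ} {s : κ → ℂ} {f : κ → A}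
    (h : ∀ i ∈ S, InS e (s i) (f i)) : InS e (∑ i ∈ S, s i) (∑ i ∈ S, f i) := by
  classical
  induction S using Finset.induction_on with
  | empty => simpa using InS.zero e
  | insert a S ha ih =>
    rw [Finset.sum_insert ha, Finset.sum_insert ha]
    exact (h a (Finset.mem_insert_self a S)).add
      (ih fun i hi => h i (Finset.mem_insert_of_mem hi))

theorem InS.st {e f : A} (he : IsSelfAdjoint e) {s : ℂ} (hf : InS e s f) :
    InS e (star s) (star f) := by
  obtain ⟨y, rfl⟩ := hf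
  refine ⟨Star.star y, ?_⟩
  rw [star_add, star_smul, star_one, star_mul, star_mul, he.star_eq, mul_assoc]

theorem InF.add {e f g : A} (hf : InF e f) (hg : InF e g) : InF e (f + g) := by
  obtain ⟨s, hs⟩ := hf
  obtain ⟨t, ht⟩ := hg
  exact ⟨_, hs.add ht⟩

theorem InF.neg {e f : A} (hf : InF e f) : InF e (-f) := by
  obtain ⟨s, hs⟩ := hf
  exact ⟨_, hs.neg⟩

theorem InF.sub {e f g : A} (hf : InF e f) (hg : InF e g) : InF e (f - g) := by
  rw [sub_eq_add_neg]
  exact hf.add hg.neg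

theorem InF.mul {e f g : A} (hf : InF e f) (hg : InF e g) : InF e (f * g) := by
  obtain ⟨s, hs⟩ := hf
  obtain ⟨t, ht⟩ := hg
  exact ⟨_, hs.mul ht⟩

theorem InF.st {e f : A} (he : IsSelfAdjoint e) (hf : InF e f) : InF e (star f) := by
  obtain ⟨s, hs⟩ := hf
  exact ⟨_, hs.st he⟩

theorem InF.one (e : A) : InF e 1 := ⟨1, InS.one e⟩

theorem InF.sum {e : A} {κ : Type} {S : Finset κ} {f : κ → A}
    (h : ∀ i ∈ S, InF e (f i)) : InF e (∑ i ∈ S, f i) := by
  classical
  induction S using Finset.induction_on with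
  | empty => exact ⟨0, by simpa using InS.zero e⟩
  | insert a S ha ih =>
    rw [Finset.sum_insert ha]
    exact (h a (Finset.mem_insert_self a S)).add
      (ih fun i hi => h i (Finset.mem_insert_of_mem hi))

/-- The inverse of `s + e t e`. -/
theorem InS.inv {e S T : A} {s : ℂ} (hs : s ≠ 0) (hS : InS e s S) (h1 : S * T = 1)
    (h2 : T * S = 1) : InF e T := by
  obtain ⟨t, rfl⟩ := hS
  obtain ⟨X, hX⟩ : ∃ X, X = e * t * e := ⟨_, rfl⟩
  rw [← hX] at h1 h2
  rw [add_mul, smul_mul_assoc, one_mul] at h1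
  rw [mul_add, mul_smul_comm, mul_one] at h2
  have e1 : s • T = 1 - X * T := eq_sub_of_add_eq h1
  have e2 : s • T = 1 - T * X := eq_sub_of_add_eq h2
  have e3 : (s * s) • T = s • (1 : A) - X + X * T * X := by
    rw [mul_smul, e2, smul_sub, ← smul_mul_assoc, e1, sub_mul, one_mul]
    abel
  have e4 : T = (s * s)⁻¹ • (s • (1 : A) - X + X * T * X) := by
    rw [← e3, smul_smul, inv_mul_cancel₀ (mul_ne_zero hs hs), one_smul]
  refine ⟨(s * s)⁻¹ * s, (s * s)⁻¹ • (-t + t * e * T * e * t), ?_⟩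
  conv_lhs => rw [e4, hX]
  simp only [smul_add, smul_sub, smul_neg, mul_add, add_mul, smul_smul, mul_smul_comm,
    smul_mul_assoc, mul_neg, neg_mul, mul_assoc]
  abel

theorem InG.add {c : CStarMatrix ν ν A} {e : A} {v w : ν → A} (hv : InG c e v)
    (hw : InG c e w) : InG c e (fun n => v n + w n) := by
  obtain ⟨z, hz⟩ := hv
  obtain ⟨y, hy⟩ := hw
  refine ⟨fun n => z n + y n, fun n => ?_⟩
  show v n + w n = _
  rw [hz, hy]
  simp only [mul_add, Finset.sum_add_distrib, add_mul]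

theorem InG.sub {c : CStarMatrix ν ν A} {e : A} {v w : ν → A} (hv : InG c e v)
    (hw : InG c e w) : InG c e (fun n => v n - w n) := by
  obtain ⟨z, hz⟩ := hv
  obtain ⟨y, hy⟩ := hw
  refine ⟨fun n => z n - y n, fun n => ?_⟩
  show v n - w n = _
  rw [hz, hy]
  simp only [mul_sub, Finset.sum_sub_distrib, sub_mul]

theorem InG.mulF {c : CStarMatrix ν ν A} {e f : A} {v : ν → A} (hv : InG c e v)
    (hf : InF e f) : InG c e (fun n => v n * f) := by
  obtain ⟨z, hz⟩ := hv
  obtain ⟨s, y, rfl⟩ := hf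
  refine ⟨fun n => z n * (s • 1 + e * e * y), fun n => ?_⟩
  have e1 : e * (s • (1 : A) + e * y * e) = (s • 1 + e * e * y) * e := by
    simp only [mul_add, add_mul, mul_smul_comm, smul_mul_assoc, one_mul, mul_one, mul_assoc]
  show v n * _ = _
  rw [hz, mul_assoc, e1, ← mul_assoc, Finset.sum_mul]
  simp only [mul_assoc]

theorem InG.st {c : CStarMatrix ν ν A} (hc : 0 ≤ c) {e : A} (he : IsSelfAdjoint e)
    {v : ν → A} (hv : InG c e v) : InR c e (fun n => star (v n)) := by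
  obtain ⟨z, hz⟩ := hv
  refine ⟨fun n => star (z n), fun n => ?_⟩
  have hcs : ∀ k, star (c n k) = c k n := by
    intro k
    have h := hc.isSelfAdjoint.star_eq
    have h2 := congrArg (fun M : CStarMatrix ν ν A => M k n) h
    exact h2
  show Star.star (v n) = _
  rw [hz, star_mul, he.star_eq, star_sum]
  simp only [star_mul, hcs]

theorem InR.Fmul {c : CStarMatrix ν ν A} {e f : A} {u : ν → A} (hf : InF e f)
    (hu : InR c e u) : InR c e (fun n => f * u n) := by
  obtain ⟨r, hr⟩ := hu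
  obtain ⟨s, y, rfl⟩ := hf
  refine ⟨fun n => (s • 1 + y * e * e) * r n, fun n => ?_⟩
  have e1 : (s • (1 : A) + e * y * e) * e = e * (s • 1 + y * e * e) := by
    simp only [mul_add, add_mul, mul_smul_comm, smul_mul_assoc, one_mul, mul_one, mul_assoc]
  show _ * u n = _
  rw [hr, ← mul_assoc, e1, mul_assoc, Finset.mul_sum]
  simp only [mul_assoc]

theorem InR.mulG {c : CStarMatrix ν ν A} {e : A} {u v : ν → A} (hu : InR c e u)
    (hv : InG c e v) : InS e 0 (∑ n, u n * v n) := by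
  obtain ⟨r, hr⟩ := hu
  obtain ⟨z, hz⟩ := hv
  refine ⟨∑ n, (∑ k, r k * c k n) * (∑ k, c n k * z k), ?_⟩
  rw [zero_smul, zero_add, Finset.mul_sum, Finset.sum_mul]
  refine Finset.sum_congr rfl fun n _ => ?_
  rw [hr, hz]
  simp only [mul_assoc]

/-! ## One column -/

theorem one1_le_one1 {x y : A} (h : one1 x ≤ one1 y) : x ≤ y := by
  rw [← sub_nonneg] at h ⊢
  obtain ⟨s, hs⟩ := CStarAlgebra.nonneg_iff_eq_star_mul_self.mp h
  have e1 : y - x = star (s () ()) * s () () := by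
    have h2 := congrArg (fun M : CStarMatrix Unit Unit A => M () ()) hs
    have e3 : (star s * s) () () = star (s () ()) * s () () := by
      rw [CStarMatrix.mul_apply, Fintype.sum_unique]
      rfl
    exact h2.trans e3
  rw [e1]
  exact star_mul_self_nonneg _

theorem three (a b d : A) : star (a + b + d) * (a + b + d) ≤
    (3 : ℝ) • (star a * a + star b * b + star d * d) := by
  rw [← sub_nonneg]
  have h : (3 : ℝ) • (star a * a + star b * b + star d * d) -
      star (a + b + d) * (a + b + d) = star (a - b) * (a - b) + star (a - d) * (a - d) +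
        star (b - d) * (b - d) := by
    have e3 : (3 : ℝ) = 1 + 1 + 1 := by norm_num
    rw [e3]
    simp only [add_smul, one_smul, smul_add, star_add, star_sub, add_mul, mul_add, sub_mul,
      mul_sub]
    abel
  rw [h]
  exact add_nonneg (add_nonneg (star_mul_self_nonneg _) (star_mul_self_nonneg _))
    (star_mul_self_nonneg _)

theorem base {c : CStarMatrix ν ν A} {e : A} (he : 0 ≤ e) {θ : ℝ} (hR : RoomL c e θ)
    {f : A} {s : ℂ} (hf : InS e s f) (hs : s ≠ 0) {v : ν → A} (hv : InG c e v) {κ : ℝ}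
    (hκ : 0 < κ) : ∃ (w : ν → A) (l : A) (d : ℝ), 0 < d ∧ 0 ≤ l ∧ SmT θ l ∧ InG c e w ∧
      (∀ n, ‖v n - w n‖ ≤ κ) ∧
      d • (1 : A) ≤ star f * f + (∑ n, star (w n) * w n + e * l * e) := by
  obtain ⟨y, hy⟩ := hf
  obtain ⟨z, hz⟩ := hv
  obtain ⟨C, hC⟩ : ∃ C : ℝ, C = ‖e * y‖ + 1 := ⟨_, rfl⟩
  have hC0 : 0 < C := by rw [hC]; positivity
  have hC1 : ‖e * y‖ ≤ C := by rw [hC]; linarith
  have hs0 : 0 < ‖s‖ := norm_pos_iff.2 hs
  obtain ⟨ε, hε⟩ : ∃ ε : ℝ, ε = ‖s‖ / (3 * C) := ⟨_, rfl⟩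
  have hε0 : 0 < ε := by rw [hε]; positivity
  obtain ⟨z', δ, l, hδ, hl, hsm, hcl, hin⟩ := hR (CStarMatrix.ofMatrix fun n _ => z n) κ ε hκ hε0
  obtain ⟨W, hW⟩ : ∃ W : CStarMatrix ν Unit A, W = c * z' * one1 e := ⟨_, rfl⟩
  have hent : ∀ (x : CStarMatrix ν Unit A) n, (c * x * one1 e) n () =
      (∑ k, c n k * x k ()) * e := by
    intro x n
    rw [CStarMatrix.mul_apply, Fintype.sum_unique, CStarMatrix.mul_apply]
    rfl
  rw [← hW] at hcl hin
  obtain ⟨w, hw⟩ : ∃ w : ν → A, w = fun n => W n () := ⟨_, rfl⟩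
  have hWW : W.conjTranspose * W = one1 (∑ n, star (w n) * w n) := by
    ext i k
    rw [CStarMatrix.mul_apply, hw]
    rfl
  have hin2 : δ • (cut e ε * cut e ε) ≤ ∑ n, star (w n) * w n + e * l * e := by
    refine one1_le_one1 ?_
    rw [hWW] at hin
    exact hin
  obtain ⟨P, hP⟩ : ∃ P : A, P = ∑ n, star (w n) * w n + e * l * e := ⟨_, rfl⟩
  rw [← hP] at hin2
  have hP0 : 0 ≤ P := by
    rw [hP]
    refine add_nonneg (Finset.sum_nonneg fun n _ => star_mul_self_nonneg _) ?_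
    have := star_left_conjugate_nonneg hl e
    rwa [he.isSelfAdjoint.star_eq] at this
  obtain ⟨g, hg⟩ : ∃ g : A, g = cut e ε := ⟨_, rfl⟩
  rw [← hg] at hin2
  have hgs : star g = g := by rw [hg]; exact (cut_sa e ε).star_eq
  have hge : ‖e - g‖ ≤ ε := by rw [hg]; exact norm_sub_cut_le he hε0.le
  have h1 : s • (1 : A) = f + (-(e * y * g)) + (-(e * y * (e - g))) := by
    rw [hy]
    simp only [mul_sub]
    abel
  have h2 := three f (-(e * y * g)) (-(e * y * (e - g)))
  rw [← h1] at h2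
  have h3 : star (s • (1 : A)) * (s • (1 : A)) = (‖s‖ ^ 2) • (1 : A) := by
    rw [star_smul, star_one, smul_mul_smul_comm, one_mul]
    have : star s * s = ((‖s‖ ^ 2 : ℝ) : ℂ) := by
      rw [Complex.star_def, Complex.conj_mul']
      push_cast
      rfl
    rw [this]
    exact Complex.coe_smul _ _
  have h4 : star (-(e * y * g)) * (-(e * y * g)) ≤ (C ^ 2) • (g * g) := by
    have q1 : star (-(e * y * g)) * (-(e * y * g)) = star g * (star (e * y) * (e * y)) * g := by
      rw [star_neg, neg_mul_neg, star_mul (e * y) g]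
      simp only [mul_assoc]
    rw [q1]
    refine (CStarAlgebra.star_left_conjugate_le_norm_smul (IsSelfAdjoint.star_mul_self _)).trans ?_
    rw [hgs, CStarRing.norm_star_mul_self]
    refine smul_le_smul_of_nonneg_right ?_ ?_
    · nlinarith [norm_nonneg (e * y)]
    · have := star_mul_self_nonneg g
      rwa [hgs] at this
  have h5 : star (-(e * y * (e - g))) * (-(e * y * (e - g))) ≤ (C ^ 2 * ε ^ 2) • (1 : A) := by
    refine (CStarAlgebra.star_mul_le_algebraMap_norm_sq).trans ?_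
    rw [Algebra.algebraMap_eq_smul_one]
    refine smul_le_smul_of_nonneg_right ?_ zero_le_one
    have q1 : ‖-(e * y * (e - g))‖ ≤ C * ε := by
      rw [norm_neg]
      exact (norm_mul_le _ _).trans (mul_le_mul hC1 hge (norm_nonneg _) hC0.le)
    calc ‖-(e * y * (e - g))‖ ^ 2 ≤ (C * ε) ^ 2 := pow_le_pow_left₀ (norm_nonneg _) q1 2
      _ = C ^ 2 * ε ^ 2 := by ring
  have h6 : (‖s‖ ^ 2) • (1 : A) ≤ (3 : ℝ) • (star f * f + (C ^ 2) • (g * g) +
      (C ^ 2 * ε ^ 2) • (1 : A)) := by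
    rw [← h3]
    refine h2.trans (smul_le_smul_of_nonneg_left ?_ (by norm_num))
    exact add_le_add (add_le_add le_rfl h4) h5
  obtain ⟨K, hK⟩ : ∃ K : ℝ, K = 3 + 3 * C ^ 2 / δ := ⟨_, rfl⟩
  have hK0 : 0 < K := by rw [hK]; positivity
  have h7 : (2 / 3 * ‖s‖ ^ 2) • (1 : A) ≤ K • (star f * f + P) := by
    have q1 : 3 * (C ^ 2 * ε ^ 2) = ‖s‖ ^ 2 / 3 := by
      rw [hε]
      field_simp
    have q2 : (3 * C ^ 2) • (g * g) ≤ (3 * C ^ 2 / δ) • P := by
      have := smul_le_smul_of_nonneg_left hin2 (show 0 ≤ 3 * C ^ 2 / δ by positivity)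
      rwa [smul_smul, div_mul_cancel₀ _ hδ.ne'] at this
    have q3 : (0 : A) ≤ (3 * C ^ 2 / δ) • (star f * f) :=
      smul_nonneg (by positivity) (star_mul_self_nonneg f)
    have q4 : (0 : A) ≤ (3 : ℝ) • P := smul_nonneg (by norm_num) hP0
    have q5 : K • (star f * f + P) - (2 / 3 * ‖s‖ ^ 2) • (1 : A) =
        ((3 : ℝ) • (star f * f + (C ^ 2) • (g * g) + (C ^ 2 * ε ^ 2) • (1 : A)) -
          (‖s‖ ^ 2) • (1 : A)) + ((3 * C ^ 2 / δ) • P - (3 * C ^ 2) • (g * g)) +
          (3 * C ^ 2 / δ) • (star f * f) + (3 : ℝ) • P := by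
      rw [smul_add (3 : ℝ), smul_add (3 : ℝ), smul_smul, smul_smul, q1, hK,
        show ‖s‖ ^ 2 / 3 = ‖s‖ ^ 2 - 2 / 3 * ‖s‖ ^ 2 by ring]
      simp only [add_smul, sub_smul, smul_add]
      abel
    rw [← sub_nonneg, q5]
    exact add_nonneg (add_nonneg (add_nonneg (sub_nonneg.2 h6) (sub_nonneg.2 q2)) q3) q4
  refine ⟨w, l, 2 / 3 * ‖s‖ ^ 2 / K, by positivity, hl, hsm, ⟨fun k => z' k (), fun n => ?_⟩,
    fun n => ?_, ?_⟩
  · rw [hw, hW]
    exact hent z' n
  · have q1 : v n - w n = -((W - c * (CStarMatrix.ofMatrix fun n _ => z n) * one1 e :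
        CStarMatrix ν Unit A) n ()) := by
      rw [CStarMatrix.sub_apply, hent, hz n, hw]
      rw [neg_sub]
      rfl
    rw [q1, norm_neg]
    exact CStarMatrix.norm_entry_le_norm.trans hcl
  · rw [← hP]
    have := smul_le_smul_of_nonneg_left h7 (inv_pos.2 hK0).le
    rwa [smul_smul, smul_smul, inv_mul_cancel₀ hK0.ne', one_smul, mul_comm K⁻¹,
      ← div_eq_mul_inv] at this

theorem nz (s : ℂ) {η : ℝ} (hη : 0 < η) : ∃ s' : ℂ, s' ≠ 0 ∧ ‖s' - s‖ ≤ η := by
  by_cases h : s = 0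
  · refine ⟨(η : ℂ), by exact_mod_cast hη.ne', ?_⟩
    rw [h, sub_zero, Complex.norm_real, Real.norm_of_nonneg hη.le]
  · refine ⟨s, h, ?_⟩
    rw [sub_self, norm_zero]
    exact hη.le

theorem norm_smul_one_le (s : ℂ) : ‖s • (1 : A)‖ ≤ ‖s‖ := by
  rw [norm_smul]
  have h : ‖(1 : A)‖ ≤ 1 := by
    rcases subsingleton_or_nontrivial A with h | h
    · rw [Subsingleton.elim (1 : A) 0, norm_zero]
      exact zero_le_one
    · exact CStarRing.norm_one.le
  have := mul_le_mul_of_nonneg_left h (norm_nonneg s)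
  rwa [mul_one] at this

theorem invS {S : A} {d : ℝ} (hd : 0 < d) (h : d • (1 : A) ≤ S) :
    ∃ T : A, S * T = 1 ∧ T * S = 1 := by
  have h1 : (1 : A) ≤ d⁻¹ • S := by
    have := smul_le_smul_of_nonneg_left h (inv_pos.2 hd).le
    rwa [smul_smul, inv_mul_cancel₀ hd.ne', one_smul] at this
  obtain ⟨T, hT⟩ := CStarAlgebra.isUnit_of_le 1 h1
  have h2 := T.mul_inv
  have h3 := T.inv_mul
  rw [hT] at h2 h3
  refine ⟨d⁻¹ • (T⁻¹ : Aˣ), ?_, ?_⟩
  · rw [mul_smul_comm, ← smul_mul_assoc]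
    exact h2
  · rw [smul_mul_assoc, ← mul_smul_comm]
    exact h3

theorem dim_ele (hMono : QMonoP.{u}) {e l : A} (he : 0 ≤ e) (hl : 0 ≤ l) (σ : QTrace A) :
    σ.dim (one1 (e * l * e)) ≤ σ.dim (one1 l) := by
  have h1 : one1 (e * l * e) = one1 e * one1 l * (one1 e).conjTranspose := by
    have h2 : (one1 e).conjTranspose = one1 e := by
      ext i k
      exact he.isSelfAdjoint.star_eq
    rw [h2]
    have := map_mul (one1H (A := A)) (e * l) e
    have h3 := map_mul (one1H (A := A)) e l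
    simp only [one1H_apply] at this h3
    rw [this, h3]
  have h0 : 0 ≤ one1 l := one1_nonneg hl
  rw [h1]
  exact hMono A σ _ _ _ _ (cm_conj_nonneg _ h0) h0 (Rect.Cu_conj _ _)

theorem ele_nonneg {e l : A} (he : 0 ≤ e) (hl : 0 ≤ l) : 0 ≤ e * l * e := by
  have := star_left_conjugate_nonneg hl e
  rwa [he.isSelfAdjoint.star_eq] at this

/-- The statement with entrywise estimates. -/
def PP (c : CStarMatrix ν ν A) (e : A) (κ : Type) [Fintype κ] [DecidableEq κ] : Prop :=
  ∀ (X : Matrix κ κ A) (Z : Matrix ν κ A), (∀ i k, InF e (X i k)) →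
    (∀ k, InG c e fun n => Z n k) → ∀ η θ : ℝ, 0 < η → 0 < θ →
  ∃ (X' : Matrix κ κ A) (Z' : Matrix ν κ A) (a : Matrix κ κ A) (b : Matrix κ ν A)
    (b' L : Matrix κ κ A), (∀ i k, InF e (X' i k)) ∧
    (∀ k, InG c e fun n => Z' n k) ∧ (∀ i k, ‖X i k - X' i k‖ ≤ η) ∧
    (∀ n k, ‖Z n k - Z' n k‖ ≤ η) ∧ 0 ≤ (CStarMatrix.ofMatrix L : CStarMatrix κ κ A) ∧
    (∀ (φ : TState A) (σ : QTrace A), IsQ φ σ →
      σ.dim (CStarMatrix.ofMatrix L : CStarMatrix κ κ A) ≤ θ) ∧
    a * X' + b * Z' + b' * L = 1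

theorem PP.reindex {c : CStarMatrix ν ν A} {e : A} (hMono : QMonoP.{u}) {κ κ' : Type}
    [Fintype κ] [DecidableEq κ] [Fintype κ'] [DecidableEq κ'] (h : PP c e κ) (f : κ' ≃ κ) :
    PP c e κ' := by
  intro X Z hX hZ η θ hη hθ
  obtain ⟨X', Z', a, b, b', L, h1, h2, h3, h4, h5, h6, h7⟩ := h
    (X.submatrix f.symm f.symm) (Z.submatrix id f.symm) (fun i k => hX _ _) (fun k => hZ _) η θ
    hη hθ
  have hL : (CStarMatrix.ofMatrix (L.submatrix f f) : CStarMatrix κ' κ' A) =
      Rect.pm A f * CStarMatrix.ofMatrix L * (Rect.pm A f).conjTranspose := by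
    ext i k
    rw [Rect.pm_conj]
    rfl
  refine ⟨X'.submatrix f f, Z'.submatrix id f, a.submatrix f f, b.submatrix f id,
    b'.submatrix f f, L.submatrix f f, fun i k => h1 _ _, fun k => h2 _, ?_, ?_, ?_, ?_, ?_⟩
  · intro i k
    have := h3 (f i) (f k)
    simpa using this
  · intro n k
    have := h4 n (f k)
    simpa using this
  · rw [hL]
    exact cm_conj_nonneg _ h5
  · intro φ σ hσ
    rw [hL]
    exact (hMono A σ _ _ _ _ (cm_conj_nonneg _ h5) h5 (Rect.Cu_conj _ _)).trans (h6 φ σ hσ)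
  · have e1 : a.submatrix f f * X'.submatrix f f = (a * X').submatrix f f :=
      Matrix.submatrix_mul_equiv a X' f f f
    have e2 : b.submatrix f id * Z'.submatrix id f = (b * Z').submatrix f f :=
      Matrix.submatrix_mul_equiv b Z' f (Equiv.refl ν) f
    have e3 : b'.submatrix f f * L.submatrix f f = (b' * L).submatrix f f :=
      Matrix.submatrix_mul_equiv b' L f f f
    rw [e1, e2, e3]
    have e4 : (a * X').submatrix f f + (b * Z').submatrix f f + (b' * L).submatrix f f =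
        (a * X' + b * Z' + b' * L).submatrix f f := rfl
    rw [e4, h7, Matrix.submatrix_one_equiv]

theorem base1 {c : CStarMatrix ν ν A} {e : A} (he : 0 ≤ e) (hMono : QMonoP.{u})
    (hR : ∀ θ : ℝ, 0 < θ → RoomL c e θ) : PP c e Unit := by
  intro X Z hX hZ η θ hη hθ
  obtain ⟨s, hs⟩ := hX () ()
  obtain ⟨s', hs', hss⟩ := nz s hη
  obtain ⟨f, hf⟩ : ∃ f : A, f = X () () + (s' - s) • (1 : A) := ⟨_, rfl⟩
  have hfS : InS e s' f := by
    have h1 : InS e (s' - s) ((s' - s) • (1 : A)) := ⟨0, by simp⟩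
    have := hs.add h1
    rwa [add_sub_cancel, ← hf] at this
  obtain ⟨w, l, d, hd, hl, hsm, hw, hvw, hdS⟩ := base he (hR θ hθ) hfS hs' (hZ ()) hη
  obtain ⟨T, hST, hTS⟩ := invS hd hdS
  refine ⟨fun _ _ => f, fun n _ => w n, fun _ _ => T * star f, fun _ n => T * star (w n),
    fun _ _ => T, fun _ _ => e * l * e, fun _ _ => ⟨s', hfS⟩, fun _ => hw, fun _ _ => ?_,
    fun n _ => hvw n, one1_nonneg (ele_nonneg he hl), fun φ σ hσ => ?_, ?_⟩
  · rw [hf]
    have : X () () - (X () () + (s' - s) • (1 : A)) = -((s' - s) • (1 : A)) := by abel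
    show ‖X () () - (X () () + (s' - s) • (1 : A))‖ ≤ η
    rw [this, norm_neg]
    exact (norm_smul_one_le _).trans hss
  · exact (dim_ele hMono he hl σ).trans (hsm φ σ hσ)
  · ext i k
    rw [Matrix.one_apply, if_pos rfl, ← hTS]
    show (∑ _j : Unit, T * star f * f) + (∑ n, T * star (w n) * w n) +
      (∑ _j : Unit, T * (e * l * e)) = _
    simp only [Fintype.sum_unique, mul_add, Finset.mul_sum, mul_assoc, add_assoc]

theorem step {c : CStarMatrix ν ν A} {e : A} (hc : 0 ≤ c) (he : 0 ≤ e) (hMono : QMonoP.{u})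
    (hDs : QDsumP.{u}) (hR : ∀ θ : ℝ, 0 < θ → RoomL c e θ) {κ : Type} [Fintype κ]
    [DecidableEq κ] (i1 : κ) (h : PP c e κ) : PP c e (Unit ⊕ κ) := by
  intro X Z hX hZ η θ hη hθ
  have hes : IsSelfAdjoint e := he.isSelfAdjoint
  -- the first column
  choose sX hsX using fun i : κ => hX (Sum.inr i) (Sum.inl ())
  obtain ⟨s', hs', hss⟩ := nz (sX i1) hη
  obtain ⟨x, hxd⟩ : ∃ x : κ → A, x = fun i =>
    if i = i1 then X (Sum.inr i) (Sum.inl ()) + (s' - sX i) • (1 : A)
    else X (Sum.inr i) (Sum.inl ()) := ⟨_, rfl⟩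
  obtain ⟨sx, hsxd⟩ : ∃ sx : κ → ℂ, sx = fun i => if i = i1 then s' else sX i := ⟨_, rfl⟩
  have hx : ∀ i, InS e (sx i) (x i) := by
    intro i
    rw [hxd, hsxd]
    by_cases hi : i = i1
    · simp only [if_pos hi]
      have h1 : InS e (s' - sX i) ((s' - sX i) • (1 : A)) := ⟨0, by simp⟩
      have := (hsX i).add h1
      rwa [add_sub_cancel] at this
    · simp only [if_neg hi]
      exact hsX i
  have hxn : ∀ i, ‖X (Sum.inr i) (Sum.inl ()) - x i‖ ≤ η := by
    intro i
    rw [hxd]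
    by_cases hi : i = i1
    · simp only [if_pos hi]
      rw [sub_add_cancel_left, norm_neg, hi]
      exact (norm_smul_one_le _).trans hss
    · simp only [if_neg hi]
      rw [sub_self, norm_zero]
      exact hη.le
  have hs1 : sx i1 ≠ 0 := by
    rw [hsxd]
    simpa using hs'
  obtain ⟨w, l, d, hd, hl, hsm, hw, hvw, hdS⟩ := base he (hR (θ / 2) (by positivity)) (hx i1) hs1
    (hZ (Sum.inl ())) hη
  obtain ⟨S, hS⟩ : ∃ S, S = ∑ i, star (x i) * x i + (∑ n, star (w n) * w n + e * l * e) :=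
    ⟨_, rfl⟩
  have hSd : d • (1 : A) ≤ S := by
    rw [hS]
    refine hdS.trans (add_le_add ?_ le_rfl)
    exact Finset.single_le_sum (f := fun i => star (x i) * x i)
      (fun i _ => star_mul_self_nonneg _) (Finset.mem_univ i1)
  obtain ⟨T, hST, hTS⟩ := invS hd hSd
  have hwR : InR c e (fun n => star (w n)) := hw.st hc hes
  have hSF : InS e (∑ i, star (sx i) * sx i + (0 + 0)) S := by
    rw [hS]
    refine InS.add (InS.sum fun i _ => ((hx i).st hes).mul (hx i)) ?_
    exact InS.add (hwR.mulG hw) ⟨l, by simp⟩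
  have hs0 : ∑ i, star (sx i) * sx i + (0 + 0) ≠ 0 := by
    have e1 : ∀ i, star (sx i) * sx i = ((‖sx i‖ ^ 2 : ℝ) : ℂ) := by
      intro i
      rw [Complex.star_def, Complex.conj_mul']
      push_cast
      rfl
    simp only [e1, add_zero]
    rw [← Complex.ofReal_sum]
    have h1 : 0 < ∑ i, ‖sx i‖ ^ 2 := by
      refine Finset.sum_pos' (fun i _ => by positivity) ⟨i1, Finset.mem_univ _, ?_⟩
      have := norm_pos_iff.2 hs1
      positivity
    exact_mod_cast h1.ne'
  have hT : InF e T := hSF.inv hs0 hST hTS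
  let am : Matrix Unit (κ ⊕ ν) A := fun _ r =>
    Sum.elim (fun i => T * star (x i)) (fun n => T * star (w n)) r
  let xm : Matrix (κ ⊕ ν) Unit A := fun r _ => Sum.elim x w r
  let bm : Matrix Unit Unit A := fun _ _ => T
  let wm : Matrix Unit Unit A := fun _ _ => e * l * e
  have hax : am * xm + bm * wm = 1 := by
    ext i k
    rw [Matrix.one_apply, if_pos rfl, Matrix.add_apply, Matrix.mul_apply, Matrix.mul_apply,
      Fintype.sum_sum_type, ← hTS, hS]
    show (∑ i, T * star (x i) * x i + ∑ n, T * star (w n) * w n) +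
      (∑ _j : Unit, T * (e * l * e)) = _
    simp only [Fintype.sum_unique, mul_add, Finset.mul_sum, mul_assoc, add_assoc]
  -- the other columns
  let x0 : Matrix Unit Unit A := fun _ _ => X (Sum.inl ()) (Sum.inl ())
  let Y0 : Matrix Unit κ A := fun _ k => X (Sum.inl ()) (Sum.inr k)
  let Y : Matrix (κ ⊕ ν) κ A := fun r k =>
    Sum.elim (fun i => X (Sum.inr i) (Sum.inr k)) (fun n => Z n (Sum.inr k)) r
  let p : Matrix Unit (κ ⊕ ν) A := (1 - x0) * am
  let Z0 : Matrix Unit κ A := Y0 + p * Y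
  let Z1 : Matrix (κ ⊕ ν) κ A := Y - xm * Z0
  have hpe : ∀ r, p () r = (1 - X (Sum.inl ()) (Sum.inl ())) * am () r := by
    intro r
    show ((1 - x0) * am : Matrix Unit (κ ⊕ ν) A) () r = _
    rw [Matrix.mul_apply, Fintype.sum_unique, Matrix.sub_apply]
    rfl
  have ht : InF e (1 - X (Sum.inl ()) (Sum.inl ())) := (InF.one e).sub (hX _ _)
  have hp1 : ∀ i, InF e (p () (Sum.inl i)) := by
    intro i
    rw [hpe]
    exact ht.mul (hT.mul (InF.st hes ⟨_, hx i⟩))
  have hp2 : InR c e (fun n => p () (Sum.inr n)) := by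
    have : (fun n => p () (Sum.inr n)) = fun n =>
        (1 - X (Sum.inl ()) (Sum.inl ())) * (T * star (w n)) := by
      funext n
      rw [hpe]
      rfl
    rw [this]
    exact InR.Fmul ht (InR.Fmul hT hwR)
  -- `p` times a column with entries in `F` and in `G`
  have hpV : ∀ (V : Matrix (κ ⊕ ν) κ A) (k : κ), (∀ i, InF e (V (Sum.inl i) k)) →
      InG c e (fun n => V (Sum.inr n) k) → InF e ((p * V) () k) := by
    intro V k h1 h2
    rw [Matrix.mul_apply, Fintype.sum_sum_type]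
    exact (InF.sum fun i _ => (hp1 i).mul (h1 i)).add ⟨_, hp2.mulG h2⟩
  have hZ0 : ∀ k, InF e (Z0 () k) := by
    intro k
    show InF e (Y0 () k + (p * Y) () k)
    exact (hX _ _).add (hpV Y k (fun i => hX _ _) (hZ _))
  have hxZ : ∀ r k, (xm * Z0) r k = xm r () * Z0 () k := by
    intro r k
    rw [Matrix.mul_apply, Fintype.sum_unique]
  have hZ11 : ∀ i k, InF e (Z1 (Sum.inl i) k) := by
    intro i k
    show InF e (Y (Sum.inl i) k - (xm * Z0) (Sum.inl i) k)
    rw [hxZ]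
    exact (hX _ _).sub (InF.mul ⟨_, hx i⟩ (hZ0 k))
  have hwG : ∀ k, InG c e (fun n => (xm * Z0) (Sum.inr n) k) := by
    intro k
    have : (fun n => (xm * Z0) (Sum.inr n) k) = fun n => w n * Z0 () k := by
      funext n
      rw [hxZ]
      rfl
    rw [this]
    exact hw.mulF (hZ0 k)
  have hZ12 : ∀ k, InG c e (fun n => Z1 (Sum.inr n) k) := by
    intro k
    exact (hZ (Sum.inr k)).sub (hwG k)
  obtain ⟨Sp, hSp⟩ : ∃ Sp : ℝ, Sp = ∑ r, ‖p () r‖ := ⟨_, rfl⟩
  have hS0 : 0 ≤ Sp := by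
    rw [hSp]
    exact Finset.sum_nonneg fun r _ => norm_nonneg _
  obtain ⟨X3, Z3, a2, b2, b2', L2, k1, k2, k3, k4, k5, k6, k7⟩ := h
    (fun i k => Z1 (Sum.inl i) k) (fun n k => Z1 (Sum.inr n) k) hZ11 hZ12 (η / (1 + Sp)) (θ / 2)
    (by positivity) (by positivity)
  let Z2 : Matrix (κ ⊕ ν) κ A := fun r k => Sum.elim (fun i => X3 i k) (fun n => Z3 n k) r
  let aa : Matrix κ (κ ⊕ ν) A := fun k r => Sum.elim (a2 k) (b2 k) r
  have haa : aa * Z2 + b2' * L2 = 1 := by
    rw [← k7]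
    congr 1
    ext i k
    rw [Matrix.mul_apply, Fintype.sum_sum_type, Matrix.add_apply, Matrix.mul_apply,
      Matrix.mul_apply]
    rfl
  obtain ⟨Am, Bm, hAB⟩ := Rect.alg_core x0 bm wm am xm hax Z0 Z2 aa b2' L2 haa
  let M : Matrix (Unit ⊕ (κ ⊕ ν)) (Unit ⊕ κ) A :=
    Matrix.fromBlocks x0 (Z0 - (1 - x0) * am * (xm * Z0 + Z2)) xm (xm * Z0 + Z2)
  let ψ : Unit ⊕ κ → Unit ⊕ (κ ⊕ ν) := Sum.elim Sum.inl (fun i => Sum.inr (Sum.inl i))
  have hηS : η / (1 + Sp) ≤ η := div_le_self hη.le (by linarith)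
  have hV1 : ∀ i k, InF e ((xm * Z0 + Z2) (Sum.inl i) k) := by
    intro i k
    show InF e ((xm * Z0) (Sum.inl i) k + X3 i k)
    rw [hxZ]
    exact (InF.mul ⟨_, hx i⟩ (hZ0 k)).add (k1 i k)
  have hV2 : ∀ k, InG c e (fun n => (xm * Z0 + Z2) (Sum.inr n) k) := by
    intro k
    exact (hwG k).add (k2 k)
  have hZd : ∀ r k, ‖Z2 r k - Z1 r k‖ ≤ η / (1 + Sp) := by
    rintro (i | n) k
    · rw [← norm_neg, neg_sub]
      exact k3 i k
    · rw [← norm_neg, neg_sub]
      exact k4 n k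
  have hYd : ∀ r k, ‖Y r k - (xm * Z0 + Z2) r k‖ ≤ η := by
    intro r k
    have e1 : Y r k - (xm * Z0 + Z2) r k = -(Z2 r k - Z1 r k) := by
      show Y r k - ((xm * Z0) r k + Z2 r k) = -(Z2 r k - (Y r k - (xm * Z0) r k))
      abel
    rw [e1, norm_neg]
    exact (hZd r k).trans hηS
  refine ⟨fun i k => M (ψ i) k, fun n k => M (Sum.inr (Sum.inr n)) k, fun k i => Am k (ψ i),
    fun k n => Am k (Sum.inr (Sum.inr n)), Bm, Matrix.fromBlocks wm 0 0 L2, ?_, ?_, ?_, ?_, ?_,
    ?_, ?_⟩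
  · rintro (i | i) (k | k)
    · exact hX _ _
    · show InF e (Z0 () k - ((1 - x0) * am * (xm * Z0 + Z2) : Matrix Unit κ A) () k)
      exact (hZ0 k).sub (hpV _ k (fun i => hV1 i k) (hV2 k))
    · exact ⟨_, hx i⟩
    · exact hV1 i k
  · rintro (k | k)
    · exact hw
    · exact hV2 k
  · rintro (i | i) (k | k)
    · show ‖X (Sum.inl i) (Sum.inl k) - X (Sum.inl ()) (Sum.inl ())‖ ≤ η
      have : X (Sum.inl i) (Sum.inl k) - X (Sum.inl ()) (Sum.inl ()) = 0 := sub_self _
      rw [this, norm_zero]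
      exact hη.le
    · show ‖X (Sum.inl i) (Sum.inr k) -
        (Z0 - (1 - x0) * am * (xm * Z0 + Z2) : Matrix Unit κ A) () k‖ ≤ η
      have e1 : (Z0 - (1 - x0) * am * (xm * Z0 + Z2) : Matrix Unit κ A) =
          Y0 - p * (Z2 - Z1) := by
        show Y0 + p * Y - p * (xm * Z0 + Z2) = Y0 - p * (Z2 - (Y - xm * Z0))
        simp only [Matrix.mul_add, Matrix.mul_sub]
        abel
      rw [e1]
      have e2 : X (Sum.inl i) (Sum.inr k) - (Y0 - p * (Z2 - Z1) : Matrix Unit κ A) () k =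
          ∑ r, p () r * (Z2 r k - Z1 r k) := by
        rw [Matrix.sub_apply, Matrix.mul_apply]
        show Y0 () k - (Y0 () k - _) = _
        rw [sub_sub_cancel]
        rfl
      rw [e2]
      refine (norm_sum_le _ _).trans ?_
      have e3 : ∀ r, ‖p () r * (Z2 r k - Z1 r k)‖ ≤ ‖p () r‖ * (η / (1 + Sp)) := by
        intro r
        refine (norm_mul_le _ _).trans ?_
        exact mul_le_mul_of_nonneg_left (hZd r k) (norm_nonneg _)
      refine (Finset.sum_le_sum fun r _ => e3 r).trans ?_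
      rw [← Finset.sum_mul, ← hSp, mul_div_assoc', div_le_iff₀ (by positivity)]
      nlinarith
    · exact hxn i
    · exact hYd (Sum.inl i) k
  · rintro n (k | k)
    · exact hvw n
    · exact hYd (Sum.inr n) k
  · exact dsum_nonneg (one1_nonneg (ele_nonneg he hl)) k5
  · intro φ σ hσ
    have e1 : (CStarMatrix.ofMatrix (Matrix.fromBlocks wm 0 0 L2) :
        CStarMatrix (Unit ⊕ κ) (Unit ⊕ κ) A) = dsum (one1 (e * l * e))
          (CStarMatrix.ofMatrix L2 : CStarMatrix κ κ A) := rfl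
    rw [e1, (hDs A σ Unit κ _ _ (one1_nonneg (ele_nonneg he hl)) k5).2]
    have q1 := (dim_ele hMono he hl σ).trans (hsm φ σ hσ)
    have q2 := k6 φ σ hσ
    linarith
  · rw [← hAB]
    congr 1
    ext i k
    rw [Matrix.mul_apply, Fintype.sum_sum_type, Fintype.sum_sum_type]
    show (∑ j, Am i (ψ j) * M (ψ j) k) + (∑ n, Am i (Sum.inr (Sum.inr n)) *
      M (Sum.inr (Sum.inr n)) k) = _
    rw [Fintype.sum_sum_type, add_assoc]
    rfl

theorem main {c : CStarMatrix ν ν A} {e : A} (hc : 0 ≤ c) (he : 0 ≤ e) (hMono : QMonoP.{u})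
    (hDs : QDsumP.{u}) (hR : ∀ θ : ℝ, 0 < θ → RoomL c e θ) (J : ℕ) :
    PP c e (Fin (J + 1)) := by
  induction J with
  | zero => exact (base1 he hMono hR).reindex hMono (Fintype.equivOfCardEq (by simp))
  | succ J ih =>
    refine (step hc he hMono hDs hR (0 : Fin (J + 1)) ih).reindex hMono
      (Fintype.equivOfCardEq ?_)
    simp only [Fintype.card_fin, Fintype.card_sum, Fintype.card_unit]
    omega

end RectC

/-- Packet ZR-RectC. -/
theorem rectCP (hMono : QMonoP.{u}) (hDs : QDsumP.{u}) (hB : QBasicP.{u}) : RectCP.{u} := by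
  intro A _ _ _ ν _ _ c e hc he hR J m Y Z κ θ hκ hθ
  rcases J with _ | J
  · refine ⟨m, Y, Z, 0, 0, 0, 0, le_rfl, ?_, ?_, ?_, ?_⟩
    · intro φ σ hσ
      have := (hB A σ (Fin 0) (0 : CStarMatrix (Fin 0) (Fin 0) A) le_rfl).2.2.1
      simp only [Fintype.card_fin, Nat.cast_zero] at this
      linarith
    · rw [sub_self, norm_zero]
      exact hκ.le
    · rw [sub_self, norm_zero]
      exact hκ.le
    · ext i
      exact i.elim0
  · obtain ⟨K, hK, hK2⟩ := Rect.norm_le_entries (C := A) (ι := Fin (J + 1)) (κ := Fin (J + 1))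
    obtain ⟨K', hK', hK2'⟩ := Rect.norm_le_entries (C := A) (ι := ν) (κ := Fin (J + 1))
    have hfm : ∀ (m : Matrix (Fin (J + 1)) (Fin (J + 1)) ℂ)
        (Y : CStarMatrix (Fin (J + 1)) (Fin (J + 1)) A) i k,
        fm m Y e i k = m i k • (1 : A) + e * Y i k * e := by
      intro m Y i k
      have h1 : fm m Y e i k = m i k • (1 : A) + (dg (Fin (J + 1)) e * Y * dg (Fin (J + 1)) e :
          CStarMatrix (Fin (J + 1)) (Fin (J + 1)) A) i k := rfl
      rw [h1, CStarMatrix.mul_apply, Finset.sum_eq_single k, CStarMatrix.mul_apply,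
        Finset.sum_eq_single i, dg_apply, dg_apply, if_pos rfl, if_pos rfl]
      · intro j _ hj
        rw [dg_apply, if_neg (Ne.symm hj), zero_mul]
      · intro h
        exact absurd (Finset.mem_univ _) h
      · intro j _ hj
        rw [dg_apply, if_neg hj, mul_zero]
      · intro h
        exact absurd (Finset.mem_univ _) h
    have hcz : ∀ (Z : CStarMatrix ν (Fin (J + 1)) A) n k,
        (c * Z * dg (Fin (J + 1)) e) n k = (∑ i, c n i * Z i k) * e := by
      intro Z n k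
      rw [CStarMatrix.mul_apply, Finset.sum_eq_single k, CStarMatrix.mul_apply, dg_apply,
        if_pos rfl]
      · intro j _ hj
        rw [dg_apply, if_neg hj, mul_zero]
      · intro h
        exact absurd (Finset.mem_univ _) h
    obtain ⟨X', Z', a, b, b', L, h1, h2, h3, h4, h5, h6, h7⟩ := RectC.main hc he hMono hDs hR J
      (fun i k => fm m Y e i k) (fun n k => (c * Z * dg (Fin (J + 1)) e) n k)
      (fun i k => ⟨m i k, Y i k, hfm m Y i k⟩) (fun k => ⟨fun n => Z n k, fun n => hcz Z n k⟩)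
      (min (κ / K) (κ / K')) θ (lt_min (by positivity) (by positivity)) hθ
    choose m' Y' hmY using h1
    choose Z'' hZ'' using h2
    have e1 : fm m' (CStarMatrix.ofMatrix Y') e = CStarMatrix.ofMatrix X' := by
      ext i k
      exact (hfm m' (CStarMatrix.ofMatrix Y') i k).trans (hmY i k).symm
    have e2 : c * (CStarMatrix.ofMatrix fun n k => Z'' k n : CStarMatrix ν (Fin (J + 1)) A) *
        dg (Fin (J + 1)) e = CStarMatrix.ofMatrix Z' := by
      ext n k
      exact (hcz (CStarMatrix.ofMatrix fun n k => Z'' k n) n k).trans (hZ'' k n).symm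
    refine ⟨m', CStarMatrix.ofMatrix Y', CStarMatrix.ofMatrix fun n k => Z'' k n,
      CStarMatrix.ofMatrix a, CStarMatrix.ofMatrix b, CStarMatrix.ofMatrix b',
      CStarMatrix.ofMatrix L, h5, h6, ?_, ?_, ?_⟩
    · rw [e1]
      have := hK2 (CStarMatrix.ofMatrix X' - fm m Y e) (κ / K) (by positivity) (fun i k => by
        rw [← norm_neg]
        have e3 : -((CStarMatrix.ofMatrix X' - fm m Y e :
            CStarMatrix (Fin (J + 1)) (Fin (J + 1)) A) i k) = fm m Y e i k - X' i k := by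
          rw [CStarMatrix.sub_apply, neg_sub]
          rfl
        rw [e3]
        exact (h3 i k).trans (min_le_left _ _))
      rwa [mul_div_cancel₀ _ hK.ne'] at this
    · rw [e2]
      have := hK2' (CStarMatrix.ofMatrix Z' - c * Z * dg (Fin (J + 1)) e) (κ / K')
        (by positivity) (fun n k => by
        rw [← norm_neg]
        have e3 : -((CStarMatrix.ofMatrix Z' - c * Z * dg (Fin (J + 1)) e :
            CStarMatrix ν (Fin (J + 1)) A) n k) = (c * Z * dg (Fin (J + 1)) e) n k - Z' n k := by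
          rw [CStarMatrix.sub_apply, neg_sub]
          rfl
        rw [e3]
        exact (h4 n k).trans (min_le_right _ _))
      rwa [mul_div_cancel₀ _ hK'.ne'] at this
    · rw [e1, e2]
      exact h7

end RC
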